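import Pool.Agent.MP_352f7f_lc.H82.Second

/-! The class of theories without restricted completions differs from the three other classes. -/

namespace Pool.Agent.Results.MP_352f7f_lc.Separation

open Pool.Agent.MP_352f7f_lc.H82

theorem result (strict : Bool) :
    (∃ T : LA.Theory, InTQ strict T ∧ NRestr T ∧ ¬ MRDP T ∧ ¬ WeakTruth T) ∧
    (∃ T : LA.Theory, InTQ strict T ∧ NRec T ∧ ¬ NRestr T) :=
  ⟨first strict, second strict⟩

end Pool.Agent.Results.MP_352f7f_lc.Separation
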